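import Mathlib

set_option autoImplicit false

namespace Pool.Agent.MP4d4f59

variable {E : Type*} [NormedAddCommGroup E] [InnerProductSpace ℝ E] [FiniteDimensional ℝ E]

/-- second order Taylor bound on the unit ball -/
lemma taylor2 (f : E → ℝ) (hf : ContDiff ℝ 2 f) : ∃ L : ℝ, 0 ≤ L ∧ ∀ u w : E, ‖u‖ ≤ 1 →
    ‖w‖ ≤ 1 → |f w - f u - fderiv ℝ f u (w - u)| ≤ L * ‖w - u‖ ^ 2 := by
  have hF : ContDiff ℝ 1 (fderiv ℝ f) := hf.fderiv_right (by norm_num)
  have hFF : Continuous (fderiv ℝ (fderiv ℝ f)) := hF.continuous_fderiv (by norm_num)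
  obtain ⟨L, hL⟩ := (isCompact_closedBall (0 : E) 1).exists_bound_of_continuousOn
    (f := fderiv ℝ (fderiv ℝ f)) hFF.continuousOn
  have hL0 : 0 ≤ L := (norm_nonneg _).trans (hL 0 (by simp))
  have hFd : Differentiable ℝ (fderiv ℝ f) := hF.differentiable (by norm_num)
  have hfd : Differentiable ℝ f := hf.differentiable (by norm_num)
  refine ⟨L, hL0, ?_⟩
  intro u w hu hw
  have hsub : ∀ z ∈ segment ℝ u w, ‖z‖ ≤ 1 ∧ ‖z - u‖ ≤ ‖w - u‖ := by
    intro z hz
    constructor
    · have := (convex_closedBall (0 : E) 1).segment_subset (by simpa using hu)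
        (by simpa using hw) hz
      simpa using this
    · obtain ⟨a, b, ha, hb, hab, rfl⟩ := hz
      have : a • u + b • w - u = b • (w - u) := by
        have : a = 1 - b := by linarith
        rw [this]
        module
      rw [this, norm_smul, Real.norm_of_nonneg hb]
      have : b ≤ 1 := by linarith
      nlinarith [norm_nonneg (w - u)]
  have hLip : ∀ z ∈ segment ℝ u w, ‖fderiv ℝ f z - fderiv ℝ f u‖ ≤ L * ‖w - u‖ := by
    intro z hz
    have h1 := (convex_closedBall (0 : E) 1).norm_image_sub_le_of_norm_fderiv_le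
      (f := fderiv ℝ f) (C := L) (fun x _ => hFd x) (fun x hx => hL x hx)
      (x := u) (y := z) (by simpa using hu) (by simpa using (hsub z hz).1)
    exact h1.trans (mul_le_mul_of_nonneg_left (hsub z hz).2 hL0)
  have hg : ∀ z ∈ segment ℝ u w, HasFDerivWithinAt (fun z => f z - fderiv ℝ f u z)
      (fderiv ℝ f z - fderiv ℝ f u) (segment ℝ u w) z := by
    intro z _
    exact ((hfd z).hasFDerivAt.sub (fderiv ℝ f u).hasFDerivAt).hasFDerivWithinAt
  have h2 := (convex_segment u w).norm_image_sub_le_of_norm_hasFDerivWithin_le hg hLip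
    (left_mem_segment ℝ u w) (right_mem_segment ℝ u w)
  have h3 : (fun z => f z - fderiv ℝ f u z) w - (fun z => f z - fderiv ℝ f u z) u =
      f w - f u - fderiv ℝ f u (w - u) := by
    simp only [map_sub]
    ring
  rw [h3, Real.norm_eq_abs] at h2
  calc |f w - f u - fderiv ℝ f u (w - u)| ≤ L * ‖w - u‖ * ‖w - u‖ := h2
    _ = L * ‖w - u‖ ^ 2 := by ring

/-- A smooth odd function gives, after scaling, a body of constant width one with support function
`1/2 + t f` on the unit sphere. -/
lemma exists_body (f : E → ℝ) (hf : ContDiff ℝ 2 f) :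
    ∃ t : ℝ, 0 < t ∧ ∃ K : Set E, IsCompact K ∧ Convex ℝ K ∧ (interior K).Nonempty ∧
      (∀ u : E, ‖u‖ = 1 → (∀ y ∈ K, inner ℝ y u ≤ 1 / 2 + t * f u) ∧
        ∃ y ∈ K, inner ℝ y u = 1 / 2 + t * f u) := by
  obtain ⟨L, hL0, hL⟩ := taylor2 f hf
  have hfc : Continuous f := hf.continuous
  have hFc : Continuous (fun u : E => fderiv ℝ f u u - f u) :=
    ((hf.continuous_fderiv (by norm_num)).clm_apply continuous_id).sub hfc
  obtain ⟨M, hM⟩ := (isCompact_closedBall (0 : E) 1).exists_bound_of_continuousOn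
    hFc.continuousOn
  obtain ⟨N, hN⟩ := (isCompact_closedBall (0 : E) 1).exists_bound_of_continuousOn
    hfc.continuousOn
  have hM0 : 0 ≤ M := (norm_nonneg _).trans (hM 0 (by simp))
  have hN0 : 0 ≤ N := (norm_nonneg _).trans (hN 0 (by simp))
  set t : ℝ := 1 / (4 * (L + M + N + 1)) with ht
  have hpos : 0 < L + M + N + 1 := by linarith
  have ht0 : 0 < t := by positivity
  have htL : t * (L + M + N + 1) = 1 / 4 := by
    rw [ht]
    field_simp
  have htN : t * N ≤ 1 / 4 := by nlinarith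
  have hfN : ∀ w : E, ‖w‖ = 1 → |f w| ≤ N := by
    intro w hw
    have := hN w (by simp [hw])
    rwa [Real.norm_eq_abs] at this
  have htf : ∀ w : E, ‖w‖ = 1 → |t * f w| ≤ 1 / 4 := by
    intro w hw
    rw [abs_mul, abs_of_pos ht0]
    exact (mul_le_mul_of_nonneg_left (hfN w hw) ht0.le).trans htN
  let K : Set E := {y | ∀ w : E, ‖w‖ = 1 → inner ℝ y w ≤ 1 / 2 + t * f w}
  have hKmem : ∀ y : E, y ∈ K ↔ ∀ w : E, ‖w‖ = 1 → inner ℝ y w ≤ 1 / 2 + t * f w :=
    fun _ => Iff.rfl
  have hKclosed : IsClosed K := by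
    have : K = ⋂ w : E, ⋂ _ : ‖w‖ = 1, {y : E | inner ℝ y w ≤ 1 / 2 + t * f w} := by
      ext y
      simp [hKmem]
    rw [this]
    refine isClosed_iInter (fun w => isClosed_iInter (fun _ => ?_))
    exact isClosed_le (by fun_prop) continuous_const
  have hKbdd : K ⊆ Metric.closedBall (0 : E) 1 := by
    intro y hy
    rw [mem_closedBall_zero_iff]
    by_cases h0 : y = 0
    · simp [h0]
    have hn : 0 < ‖y‖ := norm_pos_iff.2 h0
    have hw : ‖(‖y‖⁻¹ : ℝ) • y‖ = 1 := by
      rw [norm_smul, norm_inv, norm_norm, inv_mul_cancel₀ hn.ne']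
    have h1 := hy _ hw
    rw [inner_smul_right, real_inner_self_eq_norm_sq] at h1
    have h2 : ‖y‖⁻¹ * ‖y‖ ^ 2 = ‖y‖ := by field_simp
    rw [h2] at h1
    have h3 := (abs_le.1 (htf _ hw)).2
    linarith
  refine ⟨t, ht0, K, (isCompact_closedBall (0 : E) 1).of_isClosed_subset hKclosed hKbdd,
    ?_, ?_, ?_⟩
  · intro y hy z hz a b ha hb hab w hw
    rw [inner_add_left, inner_smul_left, inner_smul_left]
    have h1 := hy w hw
    have h2 := hz w hw
    simp only [conj_trivial]
    have : 1 / 2 + t * f w = a * (1 / 2 + t * f w) + b * (1 / 2 + t * f w) := by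
      rw [← add_mul, hab, one_mul]
    rw [this]
    exact add_le_add (mul_le_mul_of_nonneg_left h1 ha) (mul_le_mul_of_nonneg_left h2 hb)
  · refine ⟨0, ?_⟩
    rw [mem_interior]
    refine ⟨Metric.ball 0 (1 / 4), ?_, Metric.isOpen_ball, by simp⟩
    intro y hy w hw
    rw [mem_ball_zero_iff] at hy
    have h1 : inner ℝ y w ≤ ‖y‖ * ‖w‖ := real_inner_le_norm y w
    rw [hw, mul_one] at h1
    have h2 := (abs_le.1 (htf w hw)).1
    linarith
  · intro u hu
    refine ⟨fun y hy => hy u hu, ?_⟩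
    set G : E := (InnerProductSpace.toDual ℝ E).symm (fderiv ℝ f u) -
      (fderiv ℝ f u u - f u) • u with hGdef
    have hGw : ∀ w : E, inner ℝ G w = fderiv ℝ f u w - (fderiv ℝ f u u - f u) * inner ℝ u w := by
      intro w
      rw [hGdef, inner_sub_left, inner_smul_left, InnerProductSpace.toDual_symm_apply]
      simp
    have huu : inner ℝ u u = (1 : ℝ) := by
      rw [real_inner_self_eq_norm_sq, hu]
      norm_num
    refine ⟨(1 / 2 : ℝ) • u + t • G, ?_, ?_⟩
    · intro w hw
      rw [inner_add_left, inner_smul_left, inner_smul_left, hGw]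
      simp only [conj_trivial]
      have h1 := (abs_le.1 (hL u w hu.le hw.le)).1
      rw [map_sub] at h1
      have h2 := hM u (by simp [hu])
      rw [Real.norm_eq_abs] at h2
      have h2' := abs_le.1 h2
      have h3 : ‖w - u‖ ^ 2 = 2 - 2 * inner ℝ u w := by
        rw [norm_sub_sq_real, hw, hu, real_inner_comm]
        ring
      have h4 : 0 ≤ ‖w - u‖ ^ 2 := by positivity
      set s : ℝ := inner ℝ u w with hs
      set m : ℝ := fderiv ℝ f u u - f u with hm
      rw [h3] at h1 h4
      have h5 : fderiv ℝ f u w - m * s ≤ f w + (L + M) * (2 - 2 * s) := by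
        have h6 : fderiv ℝ f u w ≤ f w - f u + fderiv ℝ f u u + L * (2 - 2 * s) := by linarith
        have h7 : m * (1 - s) ≤ M * (1 - s) := mul_le_mul_of_nonneg_right h2'.2 (by linarith)
        have h8 : 0 ≤ M * (1 - s) := mul_nonneg hM0 (by linarith)
        have h9 : fderiv ℝ f u u = m + f u := by rw [hm]; ring
        nlinarith
      have h10 : t * (fderiv ℝ f u w - m * s) ≤ t * (f w + (L + M) * (2 - 2 * s)) :=
        mul_le_mul_of_nonneg_left h5 ht0.le
      have h11 : t * ((L + M) * (2 - 2 * s)) ≤ 1 / 4 * (2 - 2 * s) := by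
        rw [← mul_assoc]
        refine mul_le_mul_of_nonneg_right ?_ h4
        nlinarith
      nlinarith
    · rw [inner_add_left, inner_smul_left, inner_smul_left, hGw, huu]
      simp only [conj_trivial]
      ring


end Pool.Agent.MP4d4f59
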